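import Pool.Agent.V11328.DG.Exist2

/-!
# Maker-Breaker domination time versus size in `G(n,p)`

The statement of Q1 is false: for `b = 1` and every constant `p ∈ [3/4, 1)` there are infinitely many
`n` such that with probability at least `1/36` the random graph `G ∼ G(n,p)` has
`s_MB(G, 1) < γ_MB(G, 1)`. The reason: choose `n` such that there are about `n^(3/2)` dominating sets
of a size `r`. They are nearly pairwise disjoint, so that by Beck's criterion Dominator can claim one
of them; but no two of them have `r - 1` common vertices, so that she cannot do it within `r` moves.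

The definitions `Dom`, `Forces`, `timeMB`, `sizeMB` are in `Pool.Agent.V11328.DG.Mom` and
`Pool.Agent.V11328.DG.Maker`; `G(V, p)` is the binomial random graph of Mathlib.
-/

set_option autoImplicit false

open MeasureTheory Filter Topology unitInterval Pool.Agent.V11328.DG
open scoped SimpleGraph

namespace Pool.Agent.Results.MP_dfc2f8_pr.TimeVersusSize

/-- Let `3/4 ≤ p < 1`. For infinitely many `n`, with probability at least `1/36`, the random graph
`G ∼ G(n,p)` satisfies `s_MB(G, 1) < γ_MB(G, 1)`. So the probability that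
`γ_MB(G, 1) = s_MB(G, 1)` does not tend to `1`. -/
theorem result (p : I) (hp0 : 3 / 4 ≤ (p : ℝ)) (hp1 : (p : ℝ) < 1) :
    (∃ᶠ n : ℕ in atTop, 1 / 36 ≤ (G(Fin n, p)).real {G | sizeMB G 1 < timeMB G 1}) ∧
    ¬ Tendsto (fun n : ℕ => (G(Fin n, p)).real {G | timeMB G 1 = sizeMB G 1}) atTop (𝓝 1) := by
  have hfreq : ∃ᶠ n : ℕ in atTop, 1 / 36 ≤ (G(Fin n, p)).real {G | sizeMB G 1 < timeMB G 1} := by
    rw [frequently_atTop]
    intro N
    obtain ⟨R, hR⟩ := eventually_atTop.1 (time_ne_size p hp0 hp1)
    obtain ⟨n, hn1, hn2⟩ := hR (max R N) (le_max_left _ _)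
    have hN : N ≤ max R N := le_max_right _ _
    refine ⟨n, by omega, hn2.trans (measureReal_mono (fun G hG => ?_))⟩
    exact lt_of_le_of_lt hG.1 hG.2
  refine ⟨hfreq, fun hlim => ?_⟩
  have h1 := hlim.eventually_const_lt (show (35 / 36 : ℝ) < 1 by norm_num)
  obtain ⟨n, h2, h3⟩ := (hfreq.and_eventually h1).exists
  set A := {G : SimpleGraph (Fin n) | sizeMB G 1 < timeMB G 1} with hA
  set B := {G : SimpleGraph (Fin n) | timeMB G 1 = sizeMB G 1} with hB
  have hdis : Disjoint A B := by
    rw [Set.disjoint_left]
    intro G h4 h5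
    exact h4.ne' h5
  have hmeas : MeasurableSet B := Set.Finite.measurableSet (Set.toFinite _)
  have h4 := measureReal_union (μ := G(Fin n, p)) hdis hmeas
  have h5 : (G(Fin n, p)).real (A ∪ B) ≤ 1 := measureReal_le_one
  linarith

end Pool.Agent.Results.MP_dfc2f8_pr.TimeVersusSize
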